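import Pool.Agent.Helper32.TC.Double

/-!
# MP_8ee768_co: where the Schönheim bound is attained, the Turán hypergraphs are cocycles

`Free k H`: `H` is `k`-uniform and no `k + 1` vertices span all their `k + 1` edges.
`Coc k C`: `C` is `k`-uniform and every `k + 1` vertices span an even number of edges.
`turan n k` is `T(n, k, k+1)`, `fmax n k` is `f(n, k)`, and `schon k j` is the bound `L(k+1+j)`
of Schönheim and of Katona, Nemetz and Simonovits: `L(k+1) = k`,
`L(n) = ⌊n L(n-1) / (n-k)⌋`.

The main point is the step (the last clause): if on `n` vertices all hypergraphs of the largest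
size are cocycles and the averaging bound, rounded down, is attained on `n + 1` vertices, then
all hypergraphs of the largest size on `n + 1` vertices are cocycles. For let `H` be one of them
and suppose `k + 1` vertices `S` span an odd number of edges. At most `n - k` vertices `v` have
`H - v` below the maximum, and all the `n - k` vertices outside `S` must be such, since `H - v`
is otherwise a cocycle. So `S` is determined by `H`. But parity gives a second odd set inside
`S ∪ {x}` for every further vertex `x`.
-/

open Finset
open Pool.Agent.Helper32.TC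

namespace Pool.Agent.Results.MP_8ee768_co.SchonheimCocycles

theorem result (k : ℕ) (hk : Even k) :
    -- if the bound is attained at one `n`, the answer is yes up to `n`
    (∀ j, turan (k + 1 + j) k = schon k j → ∀ n ≤ k + 1 + j, turan n k = fmax n k ∧
      ∀ H : Finset (Finset (Fin n)), Free k H → H.card = turan n k → Coc k H) ∧
    -- it is attained at `k + 3`
    turan (k + 3) k = schon k 2 ∧
    -- it is attained at `k + 4` for these `k`
    (∀ i, k + 4 = 2 * 2 ^ i ∨ k + 4 = 6 * 2 ^ i ∨ k + 4 = 10 * 2 ^ i ∨ k + 4 = 14 * 2 ^ i →
      turan (k + 4) k = schon k 3) ∧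
    -- it is attained where there is a Steiner system
    (∀ (r : ℕ) (B : Finset (Finset (Fin (k + (r + 1))))), (∀ b ∈ B, b.card = r + 1) →
      (∀ s : Finset (Fin (k + (r + 1))), s.card = r → ∃! b, b ∈ B ∧ s ⊆ b) →
      turan (k + (r + 1)) k = schon k r) ∧
    -- the step
    (∀ n, k + 1 ≤ n →
      (∀ H : Finset (Finset (Fin n)), Free k H → H.card = turan n k → Coc k H) →
      (n + 1) * turan n k < (n + 1 - k) * (turan (n + 1) k + 1) →
      ∀ H : Finset (Finset (Fin (n + 1))), Free k H → H.card = turan (n + 1) k → Coc k H) := by
  refine ⟨fun j hj n hn => ?_, ?_, fun i hi => ?_, fun r B hB hcov => ?_, fun n hn hE hT => ?_⟩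
  · have h1 : Ext n k := ext_below hk hj hn
    exact ⟨h1.eq hk, h1⟩
  · exact Tight.schon (k := k) (j := 2) (tight_three hk)
  · have key : ∀ s, Good s → k + 4 = (2 * s + 2) * 2 ^ i → turan (k + 4) k = schon k 3 := by
      intro s hs he
      obtain ⟨s', h1, h2⟩ := good_pow hs i
      exact good_schon hk (h1.trans he.symm) h2
    rcases hi with h | h | h | h
    · exact key 0 good_0 h
    · exact key 2 good_2 h
    · exact key 4 good_4 h
    · exact key 6 good_6 h
  · have h1 := tight_of_steiner (k := k) (r := r) (V := Fin (k + (r + 1)))
      (Fintype.card_fin _) B hB hcov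
    have e : k + (r + 1) = k + 1 + r := by omega
    rw [e] at h1 ⊢
    exact h1.schon
  · exact step hn hE hT

end Pool.Agent.Results.MP_8ee768_co.SchonheimCocycles
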