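import Pool.Agent.Helper88.Ratio.Final

set_option autoImplicit false

namespace Pool.Agent.Results.MP_8ee768_co.UniformRatio

/-- For every even `k ≥ 2` and every `n` some cocycle `C` (a `k`-uniform hypergraph on `n` vertices
such that every `k+1` vertices contain an even number of edges) has at most
`c * binom(n,k)/(k+1)` non-edges, and at most `c` times the number of non-edges of any `k`-uniform
hypergraph without a complete sub-hypergraph on `k+1` vertices, where
`c = min (17, 1 + 20 * sqrt ((n-k)/n))`. -/
theorem result :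
    ∀ k : ℕ, Even k → 2 ≤ k → ∀ n : ℕ,
      ∃ C : Finset (Finset (Fin n)),
        (∀ e ∈ C, e.card = k) ∧
        (∀ S : Finset (Fin n), S.card = k + 1 →
          Even ((C.filter (fun e => e ⊆ S)).card)) ∧
        ((k : ℝ) + 1) * ((n.choose k : ℝ) - C.card)
          ≤ min 17 (1 + 20 * Real.sqrt (((n : ℝ) - k) / n)) * (n.choose k : ℝ) ∧
        ∀ H : Finset (Finset (Fin n)),
          (∀ e ∈ H, e.card = k) →
          (∀ S : Finset (Fin n), S.card = k + 1 → ¬ (S.powersetCard k ⊆ H)) →
          (n.choose k : ℝ) - C.card
            ≤ min 17 (1 + 20 * Real.sqrt (((n : ℝ) - k) / n)) * ((n.choose k : ℝ) - H.card) :=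
  fun k hk _ n => Pool.Agent.Helper88.Ratio.main k hk n

end Pool.Agent.Results.MP_8ee768_co.UniformRatio
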